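import Pool.Agent.R629.NF.Dich

/-!
# Hilbert newforms and the boundary values of the L-functions of all abelian varieties

Let `F` be a number field, for instance totally real, and `f` a Hilbert newform over `F` of parallel
weight 2 with trivial character and with eigenvalues `a_v` in the number field `M`.  Let `A_j`,
`j ∈ J`, be a countable family of abelian varieties over `F`, for instance one from every isogeny class,
and `P_{j,v} ∈ ℚ[X]` the characteristic polynomial of Frobenius at `v` of `A_j`.  The L-functions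
`L(A_j, s)` and `L(f^τ, s)`, `τ : M → ℂ`, without the factors at the primes above a finite set `S` of
rational primes, have boundary values `l_j(t)` and `l_τ(t)` at almost all points `3/2 + it`.  Let `k` be
a countable field and `K(t)` the field generated by `k`, the numbers `l_j(t)`, `j ∈ J`, the number `t`
and all `p^{-it}`.

The Eichler-Shimura conjecture says that the product of the `L(f^τ, s)` is the L-function of an abelian
variety.  The theorem says: if the `L(f^τ, s)` are unrelated, then the transcendence degree of the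
field `K(t)(l_τ(t) : τ : M → ℂ)` over `K(t)` is `[M : ℚ]` or `[M : ℚ] - 1` for almost all `t`, and it is
`[M : ℚ] - 1`, for some `k`, exactly if the product of the `L(f^τ, s)` comes, virtually and up to a
multiplicity, from the `A_j`.
-/

set_option autoImplicit false

namespace Pool.Agent.Results.MP_e1ffa3_nt.TranscendenceDegree

open MeasureTheory Filter Topology NumberField IsDedekindDomain Polynomial
open Pool.Agent.R629.NF
open Pool.Agent.TH339.MP (nm pr)

/-- The polynomial `X² - a_v X + q_v` with coefficients in `M`. -/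
noncomputable def heckePoly {F : Type} [Field F] [NumberField F] {M : Type} [Field M]
    (a : HeightOneSpectrum (𝓞 F) → M) (v : HeightOneSpectrum (𝓞 F)) : M[X] :=
  X ^ 2 - C (a v) * X + C (nm v : M)

/-- The inclusion of the rational numbers in the complex numbers. -/
noncomputable def incl : ℚ →+* ℂ := Rat.castHom ℂ

/-- **The transcendence degree on the edge.**  The boundary functions exist.  If the systems
`τ(X² - a_v X + q_v)`, `τ : M → ℂ`, are unrelated, then:
* for every `τ₀`, the product of the `L(f^τ, s)` comes virtually and up to a multiplicity from the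
  `A_j` if and only if for some countable field `k` and almost all `t` the number `l_{τ₀}(t)` is
  algebraic over `k(l_j(t), l_σ(t), t, p^{-it} : j ∈ J, σ ≠ τ₀, p prime)`; otherwise it is
  transcendental over this field, for every countable `k` and almost all `t`;
* for all `τ₁ ≠ τ₂`, every countable `k` and almost all `t` the number `l_{τ₁}(t)` is transcendental
  over `k(l_j(t), l_σ(t), t, p^{-it} : j ∈ J, σ ≠ τ₁, τ₂, p prime)`. -/
theorem result (F : Type) [Field F] [NumberField F] (M : Type) [Field M] [NumberField M]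
    (J : Type) [Countable J] (D : J → ℕ) (P : J → HeightOneSpectrum (𝓞 F) → ℚ[X])
    (a : HeightOneSpectrum (𝓞 F) → M) (S : Finset ℕ) (hS : Unram F S)
    (hA : ∀ j, IsSys S (2 * D j) (1 / 2) (toC incl (P j)))
    (hf : ∀ τ : M →+* ℂ, IsSys S 2 (1 / 2) (toC τ (heckePoly a))) :
    ((∀ j, ∃ l : ℝ → ℂ, IsEdgeOf S (2 * D j) (toC incl (P j)) (1 / 2) l) ∧
      ∀ τ : M →+* ℂ, ∃ l : ℝ → ℂ, IsEdgeOf S 2 (toC τ (heckePoly a)) (1 / 2) l) ∧
    (UnrelatedConj S (heckePoly a) → ∀ (lA : J → ℝ → ℂ) (lf : (M →+* ℂ) → ℝ → ℂ),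
      (∀ j, IsEdgeOf S (2 * D j) (toC incl (P j)) (1 / 2) (lA j)) →
      (∀ τ : M →+* ℂ, IsEdgeOf S 2 (toC τ (heckePoly a)) (1 / 2) (lf τ)) →
      (∀ τ₀ : M →+* ℂ, (VirtuallyFrom S P (heckePoly a) ↔
          DependentOn (lf τ₀) (Sum.elim lA fun σ : {σ : M →+* ℂ // σ ≠ τ₀} => lf σ.1)) ∧
        (DependentOn (lf τ₀) (Sum.elim lA fun σ : {σ : M →+* ℂ // σ ≠ τ₀} => lf σ.1) ∨
          IndependentOf (lf τ₀) (Sum.elim lA fun σ : {σ : M →+* ℂ // σ ≠ τ₀} => lf σ.1))) ∧
      ∀ τ₁ τ₂ : M →+* ℂ, τ₁ ≠ τ₂ → IndependentOf (lf τ₁)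
        (Sum.elim lA fun σ : {σ : M →+* ℂ // σ ≠ τ₁ ∧ σ ≠ τ₂} => lf σ.1)) :=
  ⟨⟨fun j => exists_edgeOf hS (hA j), fun τ => exists_edgeOf hS (hf τ)⟩,
    fun hU _ _ hlA hlf => conj_main hS hA hf hU hlA hlf⟩

end Pool.Agent.Results.MP_e1ffa3_nt.TranscendenceDegree
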